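import Pool.Agent.H82.KL.Targets

/-!
Module GLB of the board kl_modules: the level set estimate without localisation in space.
-/

set_option autoImplicit false

namespace Pool.Agent.H86.KL

open MeasureTheory Set FourierTransform
open scoped ENNReal NNReal SchwartzMap

open Pool.Agent.H82.KL

/-- the contribution of the far part of `f` -/
theorem far_bound {d : ℕ} (a : EE d → ℂ) (C : ℝ≥0) (M : ℕ)
    (hC : ∀ s r : ℝ, 0 ≤ r → ∫⁻ y in {y : EE d | r ≤ abs (‖y‖ - |s|)}, ‖U a (y, s)‖ₑ ≤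
      C * ENNReal.ofReal ((1 + |s|) ^ (((d : ℝ) - 1) / 2) * ((1 + r) ^ M)⁻¹))
    (R B N : ℝ) (hR : 1 ≤ R) (hB : 2 ≤ B) (hN : 0 ≤ N) (g : EE d → ℂ) (hg : ∀ y, ‖g y‖ ≤ N)
    (z : EE d × ℝ) (hz0 : 0 ≤ z.2) (hz : z.2 ≤ 2 * R) (hf : ∀ y, g y ≠ 0 → B * R ≤ dist y z.1) :
    ‖W a g z‖ ≤ N * (C * ((1 + |z.2|) ^ (((d : ℝ) - 1) / 2) * ((1 + (B - 2) * R) ^ M)⁻¹)) := by
  have hr : 0 ≤ (B - 2) * R := mul_nonneg (by linarith) (by linarith)
  have h1 : ‖W a g z‖ₑ ≤ ENNReal.ofReal N * (C * ENNReal.ofReal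
      ((1 + |z.2|) ^ (((d : ℝ) - 1) / 2) * ((1 + (B - 2) * R) ^ M)⁻¹)) := by
    refine le_trans ?_ (mul_le_mul' le_rfl (hC z.2 _ hr))
    unfold W
    refine (enorm_integral_le_lintegral_enorm _).trans ?_
    rw [← lintegral_const_mul' _ _ ENNReal.ofReal_ne_top, ← lintegral_indicator]
    rotate_left
    · exact measurableSet_le measurable_const
        ((continuous_norm.sub continuous_const).abs.measurable)
    rw [← lintegral_sub_left_eq_self (({y : EE d | (B - 2) * R ≤ abs (‖y‖ - |z.2|)}).indicator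
      fun y => ENNReal.ofReal N * ‖U a (y, z.2)‖ₑ) z.1]
    refine lintegral_mono fun y => ?_
    by_cases hy : g y = 0
    · simp [hy]
    · have h2 := hf y hy
      have h3 : (z.1 - y) ∈ {y : EE d | (B - 2) * R ≤ abs (‖y‖ - |z.2|)} := by
        have h4 : B * R ≤ ‖z.1 - y‖ := by rwa [dist_comm, dist_eq_norm] at h2
        have h5 : |z.2| ≤ 2 * R := by rwa [abs_of_nonneg hz0]
        simp only [mem_ofPred_eq]
        refine le_trans ?_ (le_abs_self _)
        linarith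
      rw [Set.indicator_of_mem h3, enorm_mul, mul_comm]
      refine mul_le_mul' ?_ le_rfl
      rw [← ofReal_norm]
      exact ENNReal.ofReal_le_ofReal (hg y)
  have h2 : (0 : ℝ) ≤ (1 + |z.2|) ^ (((d : ℝ) - 1) / 2) * ((1 + (B - 2) * R) ^ M)⁻¹ := by
    positivity
  have h3 : ENNReal.ofReal N * (C * ENNReal.ofReal
      ((1 + |z.2|) ^ (((d : ℝ) - 1) / 2) * ((1 + (B - 2) * R) ^ M)⁻¹)) =
      ENNReal.ofReal (N * (C * ((1 + |z.2|) ^ (((d : ℝ) - 1) / 2) *
        ((1 + (B - 2) * R) ^ M)⁻¹))) := by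
    rw [ENNReal.ofReal_mul hN, ENNReal.ofReal_mul (NNReal.coe_nonneg C),
      ENNReal.ofReal_coe_nnreal]
  rw [h3, ← ofReal_norm, ENNReal.ofReal_le_ofReal_iff (by positivity)] at h1
  exact h1

/-- the number of the cells near a point -/
theorem cell_count {d : ℕ} (s ρ : ℝ) (hs : 0 < s) (hρ : 0 ≤ ρ) (S : Finset (Fin d → ℤ))
    (y : EE d) (hS : ∀ q ∈ S, ∀ i, |(q i : ℝ) * s - y i| ≤ ρ) :
    (S.card : ℝ) ≤ (2 * ρ / s + 1) ^ d := by
  classical
  have h1 : S ⊆ Fintype.piFinset fun i => Finset.Icc ⌈(y i - ρ) / s⌉ ⌊(y i + ρ) / s⌋ := by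
    intro q hq
    rw [Fintype.mem_piFinset]
    intro i
    have := abs_le.1 (hS q hq i)
    rw [Finset.mem_Icc, Int.ceil_le, Int.le_floor]
    constructor
    · rw [div_le_iff₀ hs]; linarith
    · rw [le_div_iff₀ hs]; linarith
  have h2 : (S.card : ℝ) ≤ ∏ i : Fin d,
      ((Finset.Icc ⌈(y i - ρ) / s⌉ ⌊(y i + ρ) / s⌋).card : ℝ) := by
    have := Finset.card_le_card h1
    rw [Fintype.card_piFinset] at this
    exact_mod_cast this
  refine h2.trans ?_
  have h3 : ∀ i : Fin d, ((Finset.Icc ⌈(y i - ρ) / s⌉ ⌊(y i + ρ) / s⌋).card : ℝ) ≤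
      2 * ρ / s + 1 := by
    intro i
    rw [Int.card_Icc]
    have h4 : (⌊(y i + ρ) / s⌋ : ℝ) ≤ (y i + ρ) / s := Int.floor_le _
    have h5 : (y i - ρ) / s ≤ (⌈(y i - ρ) / s⌉ : ℝ) := Int.le_ceil _
    have h6 : (y i + ρ) / s - (y i - ρ) / s = 2 * ρ / s := by ring
    have h7 : 0 ≤ 2 * ρ / s := by positivity
    rcases le_total 0 (⌊(y i + ρ) / s⌋ + 1 - ⌈(y i - ρ) / s⌉) with h | h
    · have : (((⌊(y i + ρ) / s⌋ + 1 - ⌈(y i - ρ) / s⌉).toNat : ℤ) : ℝ) =
          (⌊(y i + ρ) / s⌋ : ℝ) + 1 - ⌈(y i - ρ) / s⌉ := by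
        rw [Int.toNat_of_nonneg h]
        push_cast
        ring
      have h8 : (((⌊(y i + ρ) / s⌋ + 1 - ⌈(y i - ρ) / s⌉).toNat : ℕ) : ℝ) =
          (((⌊(y i + ρ) / s⌋ + 1 - ⌈(y i - ρ) / s⌉).toNat : ℤ) : ℝ) := by push_cast; rfl
      rw [h8, this]
      linarith
    · rw [Int.toNat_of_nonpos h]
      push_cast
      linarith
  calc ∏ i : Fin d, ((Finset.Icc ⌈(y i - ρ) / s⌉ ⌊(y i + ρ) / s⌋).card : ℝ) ≤
      ∏ _i : Fin d, (2 * ρ / s + 1) :=
        Finset.prod_le_prod (fun i _ => Nat.cast_nonneg _) fun i _ => h3 i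
    _ = (2 * ρ / s + 1) ^ d := by simp

/-- the centre of a cell -/
noncomputable def ctr {d : ℕ} (s : ℝ) (q : Fin d → ℤ) : EE d :=
  WithLp.toLp 2 fun i => (q i : ℝ) * s

theorem ctr_apply {d : ℕ} (s : ℝ) (q : Fin d → ℤ) (i : Fin d) : ctr s q i = (q i : ℝ) * s := rfl

/-- the cell of a point -/
noncomputable def cel {d : ℕ} (s : ℝ) (x : EE d) : Fin d → ℤ := fun i => ⌊x i / s⌋

theorem dist_ctr {d : ℕ} (s : ℝ) (hs : 0 < s) (x : EE d) : dist x (ctr s (cel s x)) ≤ d * s := by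
  rw [EuclideanSpace.dist_eq]
  have h1 : ∀ i : Fin d, dist (x i) (ctr s (cel s x) i) ^ 2 ≤ s ^ 2 := by
    intro i
    rw [ctr_apply, Real.dist_eq]
    have h2 := Int.floor_le (x i / s)
    have h3 := Int.lt_floor_add_one (x i / s)
    rw [le_div_iff₀ hs] at h2
    rw [div_lt_iff₀ hs] at h3
    have h4 : |x i - (cel s x i : ℝ) * s| ≤ s := by
      unfold cel
      rw [abs_le]
      constructor <;> nlinarith
    exact pow_le_pow_left₀ (abs_nonneg _) h4 2
  have h5 : ∑ i : Fin d, dist (x i) (ctr s (cel s x) i) ^ 2 ≤ (d * s) ^ 2 := by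
    calc ∑ i : Fin d, dist (x i) (ctr s (cel s x) i) ^ 2 ≤ ∑ _i : Fin d, s ^ 2 :=
          Finset.sum_le_sum fun i _ => h1 i
      _ = (d : ℝ) * s ^ 2 := by simp
      _ ≤ (d : ℝ) ^ 2 * s ^ 2 := by
        refine mul_le_mul_of_nonneg_right ?_ (sq_nonneg _)
        rcases Nat.eq_zero_or_pos d with h | h
        · simp [h]
        · have : (1 : ℝ) ≤ d := by exact_mod_cast h
          nlinarith
      _ = (d * s) ^ 2 := by ring
  exact (Real.sqrt_le_sqrt h5).trans (by rw [Real.sqrt_sq (by positivity)])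

/-- the sum of the localised masses -/
theorem sum_local {d : ℕ} (s ρ : ℝ) (hs : 0 < s) (hρ : 0 ≤ ρ) (S : Finset (Fin d → ℤ))
    (f : EE d → ℂ) (hf : Measurable f) :
    ∑ q ∈ S, ∫⁻ y, ‖({y : EE d | dist y (ctr s q) ≤ ρ}).indicator f y‖ₑ ^ 2 ≤
      ENNReal.ofReal ((2 * ρ / s + 1) ^ d) * ∫⁻ y, ‖f y‖ₑ ^ 2 := by
  classical
  have hm : ∀ q, MeasurableSet {y : EE d | dist y (ctr s q) ≤ ρ} := fun q =>
    measurableSet_le (measurable_id.dist measurable_const) measurable_const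
  rw [← lintegral_finsetSum _ fun q _ => ((hf.indicator (hm q)).enorm.pow_const 2),
    ← lintegral_const_mul' _ _ ENNReal.ofReal_ne_top]
  refine lintegral_mono fun y => ?_
  have h1 : ∀ q, ‖({y : EE d | dist y (ctr s q) ≤ ρ}).indicator f y‖ₑ ^ 2 =
      if dist y (ctr s q) ≤ ρ then ‖f y‖ₑ ^ 2 else 0 := by
    intro q
    by_cases h : dist y (ctr s q) ≤ ρ
    · rw [Set.indicator_of_mem (by exact h), if_pos h]
    · rw [Set.indicator_of_notMem (by exact h), if_neg h]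
      simp
  simp only [h1]
  rw [← Finset.sum_filter, Finset.sum_const, nsmul_eq_mul]
  refine mul_le_mul' ?_ le_rfl
  rw [← ENNReal.ofReal_natCast]
  refine ENNReal.ofReal_le_ofReal (cell_count s ρ hs hρ _ y ?_)
  intro q hq i
  have h2 := (Finset.mem_filter.1 hq).2
  have h3 : |(ctr s q) i - y i| ≤ ‖ctr s q - y‖ := by
    have := EuclideanSpace.norm_eq (ctr s q - y)
    rw [this]
    refine Real.le_sqrt_of_sq_le ?_
    have h4 : ∀ i, ‖(ctr s q - y) i‖ ^ 2 = ((ctr s q) i - y i) ^ 2 := by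
      intro i
      simp
    simp only [h4]
    rw [sq_abs]
    exact Finset.single_le_sum (f := fun i => ((ctr s q) i - y i) ^ 2)
      (fun i _ => sq_nonneg _) (Finset.mem_univ i)
  rw [ctr_apply] at h3
  refine h3.trans ?_
  rwa [dist_comm, dist_eq_norm] at h2

/-- GLB: the level set estimate -/
theorem glb_main (h1 : T_LOC) (_h2 : T_SUPB) (h3 : T_TAIL) : T_GLB := by
  classical
  intro d k L ε a hd hk hL hε ha hT
  have hd1 : 1 ≤ d := by omega
  have hd1' : (1 : ℝ) ≤ d := by exact_mod_cast hd1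
  obtain ⟨C0, hC0⟩ := h1 d k (L + 1) ε a hd hk (by linarith) hε ha hT
  have hTail : ∀ j, ∃ C : ℝ≥0, ∀ s r : ℝ, 0 ≤ r →
      ∫⁻ y in {y : EE d | r ≤ abs (‖y‖ - |s|)}, ‖U (a j) (y, s)‖ₑ ≤
        C * ENNReal.ofReal ((1 + |s|) ^ (((d : ℝ) - 1) / 2) * ((1 + r) ^ ⌈L⌉₊)⁻¹) :=
    fun j => h3 d ⌈L⌉₊ (a j) hd1 (ha j)
  choose CT hCT using hTail
  obtain ⟨w, hw⟩ : ∃ w : ℝ, w = (3 : ℝ) ^ (((d : ℝ) - 1) / 2) := ⟨_, rfl⟩
  have hw0 : 0 < w := by rw [hw]; positivity
  obtain ⟨b, hb⟩ : ∃ b : ℝ, b = 1 + 2 * (∑ j, (CT j : ℝ)) * w * (2 : ℝ) ^ L := ⟨_, rfl⟩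
  have hS0 : 0 ≤ ∑ j, (CT j : ℝ) := Finset.sum_nonneg fun j _ => NNReal.coe_nonneg _
  have h2L : (0 : ℝ) < (2 : ℝ) ^ L := by positivity
  have hb1 : 1 ≤ b := by rw [hb]; have : 0 ≤ 2 * (∑ j, (CT j : ℝ)) * w * (2 : ℝ) ^ L := by
                          positivity
                         linarith
  have hbj : ∀ j, 2 * (CT j : ℝ) * w * (2 : ℝ) ^ L ≤ b := by
    intro j
    have h5 : (CT j : ℝ) ≤ ∑ j, (CT j : ℝ) :=
      Finset.single_le_sum (f := fun j => (CT j : ℝ)) (fun j _ => NNReal.coe_nonneg _)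
        (Finset.mem_univ j)
    rw [hb]
    have : 2 * (CT j : ℝ) * w * (2 : ℝ) ^ L ≤ 2 * (∑ j, (CT j : ℝ)) * w * (2 : ℝ) ^ L := by
      gcongr
    linarith
  obtain ⟨c2, hc2⟩ : ∃ c2 : ℝ, c2 = (2 : ℝ) ^ (Pk d k - 2) * 4 := ⟨_, rfl⟩
  have hc20 : 0 ≤ c2 := by rw [hc2]; positivity
  obtain ⟨c3, hc3⟩ : ∃ c3 : ℝ, c3 = (4 * d * (b + 3) + 1) ^ d := ⟨_, rfl⟩
  have hc30 : 0 ≤ c3 := by rw [hc3]; positivity
  refine ⟨C0 * (c2 * c3).toNNReal, ?_⟩
  intro R h N f Y hR hh hf hfN hY hYz hNL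
  have hR0 : 0 < R := by linarith
  have hN0 : ∀ j, 0 ≤ N j := fun j => (norm_nonneg _).trans (hfN j 0)
  obtain ⟨s, hs⟩ : ∃ s : ℝ, s = R / (2 * d) := ⟨_, rfl⟩
  have hs0 : 0 < s := by rw [hs]; positivity
  have hds : d * s = R / 2 := by rw [hs]; field_simp
  obtain ⟨ρ, hρ⟩ : ∃ ρ : ℝ, ρ = (b + 3) * R := ⟨_, rfl⟩
  have hρ0 : 0 ≤ ρ := by rw [hρ]; positivity
  have hm : ∀ q, MeasurableSet {y : EE d | dist y (ctr s q) ≤ ρ} := fun q =>
    measurableSet_le (measurable_id.dist measurable_const) measurable_const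
  -- the far part is small
  have hfar : ∀ z ∈ Y, ∀ j, ∀ g : EE d → ℂ, (∀ y, ‖g y‖ ≤ N j) →
      (∀ y, g y ≠ 0 → (b + 2) * R ≤ dist y z.1) → ‖W (a j) g z‖ ≤ h / 2 := by
    intro z hz j g hg hgz
    obtain ⟨hz1, hz2, -⟩ := hYz z hz
    have hz0 : 0 ≤ z.2 := by linarith
    have h4 := far_bound (a j) (CT j) ⌈L⌉₊ (hCT j) R (b + 2) (N j) hR (by linarith) (hN0 j) g hg
      z hz0 hz2 hgz
    refine h4.trans ?_
    have h5 : (1 + |z.2|) ^ (((d : ℝ) - 1) / 2) ≤ w * R ^ (((d : ℝ) - 1) / 2) := by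
      rw [hw, ← Real.mul_rpow (by norm_num) hR0.le]
      refine Real.rpow_le_rpow (by positivity) ?_ (by linarith)
      rw [abs_of_nonneg hz0]
      linarith
    have hM1 : 1 ≤ ⌈L⌉₊ := Nat.one_le_iff_ne_zero.2 (by
      intro h0
      rw [Nat.ceil_eq_zero] at h0
      linarith)
    have h6 : b * R ^ L ≤ (1 + (b + 2 - 2) * R) ^ ⌈L⌉₊ := by
      calc b * R ^ L ≤ b ^ ⌈L⌉₊ * R ^ ⌈L⌉₊ := by
            refine mul_le_mul ?_ ?_ (by positivity) (by positivity)
            · calc b = b ^ 1 := (pow_one b).symm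
                _ ≤ b ^ ⌈L⌉₊ := pow_le_pow_right₀ hb1 hM1
            · rw [← Real.rpow_natCast]
              exact Real.rpow_le_rpow_of_exponent_le hR (Nat.le_ceil L)
        _ = (b * R) ^ ⌈L⌉₊ := by rw [mul_pow]
        _ ≤ _ := by
          refine pow_le_pow_left₀ (by positivity) ?_ _
          have : b + 2 - 2 = b := by ring
          rw [this]
          linarith
    have hRL : 0 < R ^ L := by positivity
    have h7 : N j * R ^ (((d : ℝ) - 1) / 2) ≤ (2 : ℝ) ^ L * R ^ L * h := by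
      rw [← Real.mul_rpow (by norm_num) hR0.le]
      exact hNL j
    calc N j * ((CT j : ℝ) * ((1 + |z.2|) ^ (((d : ℝ) - 1) / 2) *
          ((1 + (b + 2 - 2) * R) ^ ⌈L⌉₊)⁻¹)) ≤
        N j * ((CT j : ℝ) * ((w * R ^ (((d : ℝ) - 1) / 2)) * (b * R ^ L)⁻¹)) := by
          have hNj := hN0 j
          have hCj := NNReal.coe_nonneg (CT j)
          have hinv : 0 ≤ ((1 + (b + 2 - 2) * R) ^ ⌈L⌉₊)⁻¹ :=
            inv_nonneg.2 (le_trans (by positivity) h6)
          gcongr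
      _ = (CT j : ℝ) * w * (N j * R ^ (((d : ℝ) - 1) / 2)) / (b * R ^ L) := by
          field_simp
      _ ≤ (CT j : ℝ) * w * ((2 : ℝ) ^ L * R ^ L * h) / (b * R ^ L) := by
          have hCj := NNReal.coe_nonneg (CT j)
          gcongr
      _ = (2 * (CT j : ℝ) * w * (2 : ℝ) ^ L) / b * (h / 2) := by
          field_simp
      _ ≤ 1 * (h / 2) := by
          refine mul_le_mul_of_nonneg_right ?_ (by positivity)
          rw [div_le_one (by linarith)]
          exact hbj j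
      _ = h / 2 := one_mul _
  -- the near part is large
  have hnear : ∀ z ∈ Y, ∀ j,
      h / 2 ≤ ‖W (a j) (({y : EE d | dist y (ctr s (cel s z.1)) ≤ ρ}).indicator (f j)) z‖ := by
    intro z hz j
    obtain ⟨hz1, hz2, hz3⟩ := hYz z hz
    have h4 := hz3 j
    have hint : Integrable (fun y : EE d => U (a j) (z.1 - y, z.2) * f j y) := by
      by_contra hni
      have : W (a j) (f j) z = 0 := integral_undef hni
      rw [this, norm_zero] at h4
      linarith
    have h5 : W (a j) (f j) z =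
        W (a j) (({y : EE d | dist y (ctr s (cel s z.1)) ≤ ρ}).indicator (f j)) z +
        W (a j) (({y : EE d | dist y (ctr s (cel s z.1)) ≤ ρ}ᶜ).indicator (f j)) z := by
      unfold W
      have e1 : ∀ A : Set (EE d), (fun y : EE d => U (a j) (z.1 - y, z.2) * A.indicator (f j) y) =
          A.indicator (fun y : EE d => U (a j) (z.1 - y, z.2) * f j y) := by
        intro A
        funext y
        by_cases hy : y ∈ A
        · simp [hy]
        · simp [hy]
      rw [e1, e1, ← integral_add (hint.indicator (hm _)) (hint.indicator (hm _).compl)]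
      refine integral_congr_ae (Filter.Eventually.of_forall fun y => ?_)
      simp only
      rw [Set.indicator_self_add_compl_apply]
    have h6 : ‖W (a j) (({y : EE d | dist y (ctr s (cel s z.1)) ≤ ρ}ᶜ).indicator (f j)) z‖ ≤
        h / 2 := by
      refine hfar z hz j _ (fun y => ?_) fun y hy => ?_
      · by_cases hy : y ∈ {y : EE d | dist y (ctr s (cel s z.1)) ≤ ρ}ᶜ
        · rw [Set.indicator_of_mem hy]; exact hfN j y
        · rw [Set.indicator_of_notMem hy, norm_zero]; exact hN0 j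
      · have hy2 : y ∈ {y : EE d | dist y (ctr s (cel s z.1)) ≤ ρ}ᶜ := by
          by_contra hy3
          exact hy (Set.indicator_of_notMem hy3 _)
        have hy4 : ρ < dist y (ctr s (cel s z.1)) := by
          by_contra hy5
          exact hy2 (not_lt.1 hy5)
        have hy6 := dist_triangle y z.1 (ctr s (cel s z.1))
        have hy7 := dist_ctr s hs0 z.1
        rw [hds] at hy7
        rw [hρ] at hy4
        nlinarith
    have h7 := norm_add_le
      (W (a j) (({y : EE d | dist y (ctr s (cel s z.1)) ≤ ρ}).indicator (f j)) z)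
      (W (a j) (({y : EE d | dist y (ctr s (cel s z.1)) ≤ ρ}ᶜ).indicator (f j)) z)
    rw [← h5] at h7
    linarith
  -- one cell
  have hcell : ∀ q ∈ Y.image fun z => cel s z.1,
      ((Y.filter fun z => cel s z.1 = q).card : ℝ≥0∞) ≤ C0 * ENNReal.ofReal (R ^ ε) * ∑ j,
      ENNReal.ofReal (c2 * ((N j * R ^ (((d : ℝ) - 1) / 2) / h) ^ (Pk d k - 2) / h ^ 2)) *
      ∫⁻ y, ‖({y : EE d | dist y (ctr s q) ≤ ρ}).indicator (f j) y‖ₑ ^ 2 := by
    intro q _
    have h4 := hC0 R (h / 2) N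
      (fun j => ({y : EE d | dist y (ctr s q) ≤ ρ}).indicator (f j)) (ctr s q, 3 / 2 * R)
      (Y.filter fun z => cel s z.1 = q) hR (by linarith) (fun j => (hf j).indicator (hm q))
      (fun j y => by
        by_cases hy : y ∈ {y : EE d | dist y (ctr s q) ≤ ρ}
        · rw [Set.indicator_of_mem hy]; exact hfN j y
        · rw [Set.indicator_of_notMem hy, norm_zero]; exact hN0 j)
      (fun z hz z' hz' => hY z (Finset.mem_of_mem_filter z hz) z' (Finset.mem_of_mem_filter z' hz'))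
      (by
        intro z hz
        obtain ⟨hzY, hzq⟩ := Finset.mem_filter.1 hz
        obtain ⟨hz1, hz2, -⟩ := hYz z hzY
        refine ⟨?_, hz1, hz2, fun j => ?_⟩
        · rw [Prod.dist_eq, max_le_iff]
          constructor
          · have := dist_ctr s hs0 z.1
            rw [hds, hzq] at this
            linarith
          · rw [Real.dist_eq, abs_le]
            constructor <;> linarith
        · have := hnear z hzY j
          rw [hzq] at this
          exact this)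
      (by
        intro j
        refine (hNL j).trans ?_
        rw [Real.rpow_add (by positivity), Real.rpow_one]
        have : 0 < (2 * R) ^ L := by positivity
        nlinarith [mul_pos this hh])
    refine h4.trans (le_of_eq ?_)
    congr 1
    refine Finset.sum_congr rfl fun j _ => ?_
    congr 2
    have e1 : N j * R ^ (((d : ℝ) - 1) / 2) / (h / 2) =
        2 * (N j * R ^ (((d : ℝ) - 1) / 2) / h) := by field_simp
    have e2 : 0 ≤ N j * R ^ (((d : ℝ) - 1) / 2) / h :=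
      div_nonneg (mul_nonneg (hN0 j) (by positivity)) hh.le
    rw [e1, Real.mul_rpow (by norm_num) e2, hc2]
    field_simp
    ring
  -- the sum over the cells
  have hcard : (Y.card : ℝ≥0∞) = ∑ q ∈ Y.image (fun z => cel s z.1),
      ((Y.filter fun z => cel s z.1 = q).card : ℝ≥0∞) := by
    rw [Finset.card_eq_sum_card_image (fun z => cel s z.1) Y]
    push_cast
    rfl
  have h2ρ : 2 * ρ / s + 1 = 4 * d * (b + 3) + 1 := by
    rw [hρ, hs]
    field_simp
    ring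
  rw [hcard]
  calc ∑ q ∈ Y.image (fun z => cel s z.1), ((Y.filter fun z => cel s z.1 = q).card : ℝ≥0∞) ≤
      ∑ q ∈ Y.image (fun z => cel s z.1), C0 * ENNReal.ofReal (R ^ ε) * ∑ j,
      ENNReal.ofReal (c2 * ((N j * R ^ (((d : ℝ) - 1) / 2) / h) ^ (Pk d k - 2) / h ^ 2)) *
      ∫⁻ y, ‖({y : EE d | dist y (ctr s q) ≤ ρ}).indicator (f j) y‖ₑ ^ 2 :=
        Finset.sum_le_sum hcell
    _ = C0 * ENNReal.ofReal (R ^ ε) * ∑ j,
      ENNReal.ofReal (c2 * ((N j * R ^ (((d : ℝ) - 1) / 2) / h) ^ (Pk d k - 2) / h ^ 2)) *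
      ∑ q ∈ Y.image (fun z => cel s z.1),
        ∫⁻ y, ‖({y : EE d | dist y (ctr s q) ≤ ρ}).indicator (f j) y‖ₑ ^ 2 := by
        rw [← Finset.mul_sum, Finset.sum_comm]
        simp only [Finset.mul_sum]
    _ ≤ C0 * ENNReal.ofReal (R ^ ε) * ∑ j,
      ENNReal.ofReal (c2 * ((N j * R ^ (((d : ℝ) - 1) / 2) / h) ^ (Pk d k - 2) / h ^ 2)) *
      (ENNReal.ofReal c3 * ∫⁻ y, ‖f j y‖ₑ ^ 2) := by
        refine mul_le_mul' le_rfl (Finset.sum_le_sum fun j _ => mul_le_mul' le_rfl ?_)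
        have := sum_local s ρ hs0 hρ0 (Y.image fun z => cel s z.1) (f j) (hf j)
        rw [h2ρ, ← hc3] at this
        exact this
    _ = _ := by
        have e1 : ∀ j, ENNReal.ofReal
            (c2 * ((N j * R ^ (((d : ℝ) - 1) / 2) / h) ^ (Pk d k - 2) / h ^ 2)) *
            (ENNReal.ofReal c3 * ∫⁻ y, ‖f j y‖ₑ ^ 2) = (ENNReal.ofReal c2 * ENNReal.ofReal c3) *
            (ENNReal.ofReal ((N j * R ^ (((d : ℝ) - 1) / 2) / h) ^ (Pk d k - 2) / h ^ 2) *
            ∫⁻ y, ‖f j y‖ₑ ^ 2) := by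
          intro j
          rw [ENNReal.ofReal_mul hc20]
          ring
        simp only [e1]
        rw [← Finset.mul_sum, ENNReal.coe_mul]
        have e2 : (((c2 * c3).toNNReal : ℝ≥0) : ℝ≥0∞) = ENNReal.ofReal c2 * ENNReal.ofReal c3 := by
          rw [← ENNReal.ofReal_mul hc20]
          rfl
        rw [e2]
        ring

end Pool.Agent.H86.KL
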